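import Mathlib
import Pool.Agent.H17.P3.Defs
import Pool.Agent.H17.TR.Cograph

set_option autoImplicit false

/-!
The matrix statement (P3) (MP_a46c6f_co, target (C)): minimal cylinder proof.
-/

namespace Pool.Agent.H14.P3

open Pool.Agent.H17.P3 (Pairs P4Split)

section
variable {X : Type}

/-- `g` is between `u` and `v` -/
def Btw (A : X → X → Prop) (u v g : X) : Prop := ∀ x, (A u x ↔ A v x) → (A g x ↔ A u x)

/-- closed pairs in `S` have midpoints in `S` -/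
def IP (A : X → X → Prop) (S : Set X) : Prop :=
  ∀ u ∈ S, ∀ v ∈ S, (A u u ↔ A v v) → ¬ (A u v ↔ A u u) →
    ∃ g ∈ S, ¬ (A g g ↔ A u u) ∧ (A g u ↔ A g g) ∧ (A g v ↔ A g g) ∧ Btw A u v g

structure P4 (A : X → X → Prop) (a b c d : X) : Prop where
  ab : A a b
  bc : A b c
  cd : A c d
  ac : ¬ A a c
  ad : ¬ A a d
  bd : ¬ A b d

def Free (A : X → X → Prop) (S : Set X) : Prop :=
  ∀ a ∈ S, ∀ b ∈ S, ∀ c ∈ S, ∀ d ∈ S, ¬ P4 A a b c d

def Root (A : X → X → Prop) (S : Set X) : Prop :=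
  (∃ r ∈ S, ∀ y ∈ S, ¬ A r y) ∨ (∃ r ∈ S, ∀ y ∈ S, A r y)

def Co (A : X → X → Prop) : X → X → Prop := fun x y => ¬ A x y

theorem mid1 {A : X → X → Prop} {S : Set X} (h : IP A S) {u v : X} (hu : u ∈ S) (hv : v ∈ S)
    (h1 : A u u) (h2 : A v v) (h3 : ¬ A u v) :
    ∃ g ∈ S, ¬ A g g ∧ ¬ A g u ∧ ¬ A g v ∧ Btw A u v g := by
  obtain ⟨g, hg, k1, k2, k3, k4⟩ := h u hu v hv (by tauto) (by tauto)
  exact ⟨g, hg, by tauto, by tauto, by tauto, k4⟩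

theorem mid0 {A : X → X → Prop} {S : Set X} (h : IP A S) {u v : X} (hu : u ∈ S) (hv : v ∈ S)
    (h1 : ¬ A u u) (h2 : ¬ A v v) (h3 : A u v) :
    ∃ g ∈ S, A g g ∧ A g u ∧ A g v ∧ Btw A u v g := by
  obtain ⟨g, hg, k1, k2, k3, k4⟩ := h u hu v hv (by tauto) (by tauto)
  exact ⟨g, hg, by tauto, by tauto, by tauto, k4⟩

theorem Btw.co {A : X → X → Prop} {u v g : X} (h : Btw A u v g) : Btw (Co A) u v g := by
  intro x hx
  have := h x (by unfold Co at hx; tauto)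
  unfold Co
  tauto

theorem Btw.of_co {A : X → X → Prop} {u v g : X} (h : Btw (Co A) u v g) : Btw A u v g := by
  intro x hx
  have := h x (by unfold Co; tauto)
  unfold Co at this
  tauto

theorem IP.co {A : X → X → Prop} {S : Set X} (h : IP A S) : IP (Co A) S := by
  intro u hu v hv h1 h2
  obtain ⟨g, hg, k1, k2, k3, k4⟩ := h u hu v hv (by unfold Co at h1; tauto)
    (by unfold Co at h2; tauto)
  exact ⟨g, hg, by unfold Co; tauto, by unfold Co; tauto, by unfold Co; tauto, k4.co⟩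

theorem IP.of_co {A : X → X → Prop} {S : Set X} (h : IP (Co A) S) : IP A S := by
  intro u hu v hv h1 h2
  obtain ⟨g, hg, k1, k2, k3, k4⟩ := h u hu v hv (by unfold Co; tauto) (by unfold Co; tauto)
  unfold Co at k1 k2 k3
  exact ⟨g, hg, by tauto, by tauto, by tauto, k4.of_co⟩

/-- the disconnected case of the root lemma -/
theorem root_step {A : X → X → Prop} (hs : ∀ x y, A x y → A y x) {S S1 S2 : Set X}
    (hU : ∀ x, x ∈ S ↔ x ∈ S1 ∨ x ∈ S2) (h12 : ∀ u ∈ S1, ∀ w ∈ S2, ¬ A u w) (hIP : IP A S)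
    (r1 : IP A S1 → Root A S1) (r2 : IP A S2 → Root A S2) : Root A S := by
  by_cases hn : ∃ r ∈ S, ∀ y ∈ S, ¬ A r y
  · exact Or.inl hn
  push Not at hn
  have h21 : ∀ u ∈ S2, ∀ w ∈ S1, ¬ A u w := fun u hu w hw h => h12 w hw u hu (hs _ _ h)
  have key : ∀ T T' : Set X, (∀ x, x ∈ S ↔ x ∈ T ∨ x ∈ T') → (∀ u ∈ T, ∀ w ∈ T', ¬ A u w) →
      (∀ u ∈ T', ∀ w ∈ T, ¬ A u w) → IP A T := by
    intro T T' hT h1 h2 u hu v hv k1 k2
    obtain ⟨g, hg, m1, m2, m3, m4⟩ := hIP u ((hT u).2 (Or.inl hu)) v ((hT v).2 (Or.inl hv)) k1 k2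
    rcases (hT g).1 hg with hg1 | hg2
    · exact ⟨g, hg1, m1, m2, m3, m4⟩
    · exfalso
      by_cases huu : A u u
      · obtain ⟨y, hy, hgy⟩ := hn g hg
        rcases (hT y).1 hy with hy1 | hy2
        · exact h2 g hg2 y hy1 hgy
        · have e1 := h1 u hu y hy2
          have e2 := h1 v hv y hy2
          have := (m4 y (by tauto)).1 hgy
          exact e1 this
      · have : A g g := by tauto
        exact h2 g hg2 u hu (m2.2 this)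
  have q1 := r1 (key S1 S2 hU h12 h21)
  have q2 := r2 (key S2 S1 (fun x => (hU x).trans or_comm) h21 h12)
  have t1 : ∃ r ∈ S1, ∀ y ∈ S1, A r y := by
    rcases q1 with ⟨r, hr, h⟩ | h
    · exfalso
      obtain ⟨y, hy, hry⟩ := hn r ((hU r).2 (Or.inl hr))
      rcases (hU y).1 hy with hy1 | hy2
      · exact h y hy1 hry
      · exact h12 r hr y hy2 hry
    · exact h
  have t2 : ∃ r ∈ S2, ∀ y ∈ S2, A r y := by
    rcases q2 with ⟨r, hr, h⟩ | h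
    · exfalso
      obtain ⟨y, hy, hry⟩ := hn r ((hU r).2 (Or.inr hr))
      rcases (hU y).1 hy with hy1 | hy2
      · exact h21 r hr y hy1 hry
      · exact h y hy2 hry
    · exact h
  obtain ⟨a, ha, ha'⟩ := t1
  obtain ⟨b, hb, hb'⟩ := t2
  obtain ⟨g, hg, g1, g2, g3, -⟩ := mid1 hIP ((hU a).2 (Or.inl ha)) ((hU b).2 (Or.inr hb))
    (ha' a ha) (hb' b hb) (h12 a ha b hb)
  rcases (hU g).1 hg with hg1 | hg2
  · exact absurd (hs _ _ (ha' g hg1)) g2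
  · exact absurd (hs _ _ (hb' g hg2)) g3

theorem P4.co {A : X → X → Prop} (hs : ∀ x y, A x y → A y x) {a b c d : X}
    (h : P4 (Co A) a b c d) : P4 A b d a c := by
  obtain ⟨h1, h2, h3, h4, h5, h6⟩ := h
  unfold Co at *
  push Not at h4 h5 h6
  exact ⟨h6, hs _ _ h5, h4, fun h => h1 (hs _ _ h), h2, fun h => h3 (hs _ _ h)⟩

/-- Seinsche for a set -/
theorem split (A : X → X → Prop) (hs : ∀ x y, A x y → A y x) (S : Set X) (hfin : S.Finite)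
    (h2 : 2 ≤ S.ncard) (hF : Free A S) :
    ∃ S1 S2 : Set X, S1.Nonempty ∧ S2.Nonempty ∧ (∀ x, x ∈ S ↔ x ∈ S1 ∨ x ∈ S2) ∧
      (∀ x ∈ S1, x ∉ S2) ∧
      ((∀ u ∈ S1, ∀ w ∈ S2, ¬ A u w) ∨ (∀ u ∈ S1, ∀ w ∈ S2, A u w)) := by
  classical
  have : Fintype S := hfin.fintype
  let M : S → S → ZMod 2 := fun x y => if A x y then 1 else 0
  have hM1 : ∀ x y : S, M x y = 1 ↔ A x y := by
    intro x y
    show (if A x y then (1 : ZMod 2) else 0) = 1 ↔ _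
    split_ifs with h <;> simp [h]
  have hM0 : ∀ x y : S, M x y = 0 ↔ ¬ A x y := by
    intro x y
    show (if A x y then (1 : ZMod 2) else 0) = 0 ↔ _
    split_ifs with h <;> simp [h]
  have hcard : (Finset.univ : Finset S).card = S.ncard := by
    rw [Finset.card_univ, ← Nat.card_eq_fintype_card, Nat.card_coe_set_eq]
  obtain ⟨B, -, hB0, hB1, s, hs'⟩ := Pool.Agent.H17.TR.seinsche M
    (by
      intro x y
      have h01 : ∀ z : ZMod 2, z = 0 ∨ z = 1 := by decide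
      rcases h01 (M x y) with h | h
      · rw [h]
        symm
        rw [hM0] at h ⊢
        exact fun h' => h (hs _ _ h')
      · rw [h]
        symm
        rw [hM1] at h ⊢
        exact hs _ _ h)
    (by
      intro a b c d h
      exact hF a a.2 b b.2 c c.2 d d.2 ⟨(hM1 _ _).1 h.ab, (hM1 _ _).1 h.bc, (hM1 _ _).1 h.cd,
        (hM0 _ _).1 h.ac, (hM0 _ _).1 h.ad, (hM0 _ _).1 h.bd⟩)
    S.ncard Finset.univ hcard h2
  refine ⟨{x | ∃ h : x ∈ S, (⟨x, h⟩ : S) ∈ B}, {x | ∃ h : x ∈ S, (⟨x, h⟩ : S) ∉ B}, ?_, ?_, ?_,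
    ?_, ?_⟩
  · obtain ⟨x, hx⟩ := Finset.nonempty_iff_ne_empty.2 hB0
    exact ⟨x, x.2, hx⟩
  · by_contra hne
    apply hB1
    ext x
    refine ⟨fun _ => Finset.mem_univ _, fun _ => ?_⟩
    by_contra hx
    exact hne ⟨x, x.2, hx⟩
  · intro x
    constructor
    · intro hx
      by_cases h : (⟨x, hx⟩ : S) ∈ B
      · exact Or.inl ⟨hx, h⟩
      · exact Or.inr ⟨hx, h⟩
    · rintro (⟨h, -⟩ | ⟨h, -⟩) <;> exact h
  · rintro x ⟨h, hb⟩ ⟨h', hb'⟩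
    exact hb' hb
  · have h01 : ∀ z : ZMod 2, z = 0 ∨ z = 1 := by decide
    rcases h01 s with rfl | rfl
    · left
      rintro u ⟨hu, hub⟩ w ⟨hw, hwb⟩
      exact (hM0 _ _).1 (hs' _ hub _ (Finset.mem_univ _) hwb)
    · right
      rintro u ⟨hu, hub⟩ w ⟨hw, hwb⟩
      exact (hM1 _ _).1 (hs' _ hub _ (Finset.mem_univ _) hwb)

/-- **the root lemma** -/
theorem root [Finite X] (A : X → X → Prop) (hs : ∀ x y, A x y → A y x) :
    ∀ (n : ℕ) (S : Set X), S.ncard = n → S.Nonempty → IP A S → Free A S → Root A S := by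
  intro n
  induction n using Nat.strong_induction_on with
  | _ n ih =>
  intro S hn hne hIP hF
  by_cases h2 : 2 ≤ S.ncard
  · obtain ⟨S1, S2, n1, n2, hU, hd, hh⟩ := split A hs S S.toFinite h2 hF
    have hs1 : S1 ⊂ S := by
      refine ⟨fun x hx => (hU x).2 (Or.inl hx), fun h => ?_⟩
      obtain ⟨y, hy⟩ := n2
      exact hd y (h ((hU y).2 (Or.inr hy))) hy
    have hs2 : S2 ⊂ S := by
      refine ⟨fun x hx => (hU x).2 (Or.inr hx), fun h => ?_⟩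
      obtain ⟨y, hy⟩ := n1
      exact hd y hy (h ((hU y).2 (Or.inl hy)))
    have c1 : S1.ncard < n := hn ▸ Set.ncard_lt_ncard hs1 S.toFinite
    have c2 : S2.ncard < n := hn ▸ Set.ncard_lt_ncard hs2 S.toFinite
    have f1 : Free A S1 := fun a ha b hb c hc d hd =>
      hF a (hs1.1 ha) b (hs1.1 hb) c (hs1.1 hc) d (hs1.1 hd)
    have f2 : Free A S2 := fun a ha b hb c hc d hd =>
      hF a (hs2.1 ha) b (hs2.1 hb) c (hs2.1 hc) d (hs2.1 hd)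
    rcases hh with hh | hh
    · exact root_step hs hU hh hIP (fun k => ih _ c1 S1 rfl n1 k f1)
        (fun k => ih _ c2 S2 rfl n2 k f2)
    · have := root_step (A := Co A) (fun x y h h' => h (hs _ _ h')) hU
        (fun u hu w hw h => h (hh u hu w hw)) hIP.co
        (fun k => by
          rcases ih _ c1 S1 rfl n1 k.of_co f1 with ⟨r, hr, h⟩ | ⟨r, hr, h⟩
          · exact Or.inr ⟨r, hr, h⟩
          · exact Or.inl ⟨r, hr, fun y hy h' => h' (h y hy)⟩)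
        (fun k => by
          rcases ih _ c2 S2 rfl n2 k.of_co f2 with ⟨r, hr, h⟩ | ⟨r, hr, h⟩
          · exact Or.inr ⟨r, hr, h⟩
          · exact Or.inl ⟨r, hr, fun y hy h' => h' (h y hy)⟩)
      rcases this with ⟨r, hr, h⟩ | ⟨r, hr, h⟩
      · exact Or.inr ⟨r, hr, fun y hy => not_not.1 (h y hy)⟩
      · exact Or.inl ⟨r, hr, h⟩
  · obtain ⟨x, hx⟩ := hne
    have hall : ∀ y ∈ S, y = x := by
      intro y hy
      by_contra hne
      have : ({x, y} : Set X) ⊆ S := by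
        rintro z (rfl | hz)
        · exact hx
        · exact (Set.mem_singleton_iff.1 hz) ▸ hy
      have := Set.ncard_le_ncard this S.toFinite
      rw [Set.ncard_pair (Ne.symm hne)] at this
      exact h2 this
    by_cases hxx : A x x
    · exact Or.inr ⟨x, hx, fun y hy => by rw [hall y hy]; exact hxx⟩
    · exact Or.inl ⟨x, hx, fun y hy => by rw [hall y hy]; exact hxx⟩


/-- the data of a minimal cylinder -/
structure Cyl (A : X → X → Prop) (C : Set X) : Prop where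
  sym : ∀ x y, A x y → A y x
  ip : IP A Set.univ
  conv : ∀ u ∈ C, ∀ v ∈ C, ∀ g, Btw A u v g → g ∈ C
  all : ∀ a ∈ C, ∀ b ∈ C, ∀ c ∈ C, ∀ d ∈ C, P4 A a b c d → ∀ w, A w a → A w b → A w c → A w d →
    ∀ x ∈ C, A w x
  none : ∀ a ∈ C, ∀ b ∈ C, ∀ c ∈ C, ∀ d ∈ C, P4 A a b c d → ∀ w, ¬ A w a → ¬ A w b → ¬ A w c →
    ¬ A w d → ∀ x ∈ C, ¬ A w x

theorem Cyl.ipOf {A : X → X → Prop} {C : Set X} (h : Cyl A C) {S : Set X}
    (hS : ∀ u ∈ S, ∀ v ∈ S, ∀ g, Btw A u v g → g ∈ S) : IP A S := by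
  intro u hu v hv k1 k2
  obtain ⟨g, -, m1, m2, m3, m4⟩ := h.ip u (Set.mem_univ _) v (Set.mem_univ _) k1 k2
  exact ⟨g, hS u hu v hv g m4, m1, m2, m3, m4⟩

theorem Cyl.rootOf [Finite X] {A : X → X → Prop} {C : Set X} (h : Cyl A C) {S : Set X}
    (hS : ∀ u ∈ S, ∀ v ∈ S, ∀ g, Btw A u v g → g ∈ S) (hF : Free A S) (hne : S.Nonempty) :
    Root A S :=
  root A h.sym _ S rfl hne (h.ipOf hS) hF

theorem Btw.pos {A : X → X → Prop} {u v g x : X} (h : Btw A u v g) (h1 : A u x) (h2 : A v x) :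
    A g x := (h x (by tauto)).2 h1

theorem Btw.neg {A : X → X → Prop} {u v g x : X} (h : Btw A u v g) (h1 : ¬ A u x) (h2 : ¬ A v x) :
    ¬ A g x := fun k => h1 ((h x (by tauto)).1 k)

/-- (1) -/
theorem Cyl.plus [Finite X] {A : X → X → Prop} {C : Set X} (h : Cyl A C)
    (hfull : ∀ w ∈ C, ∃ x ∈ C, ¬ A w x) {w x : X} (hw : w ∈ C) (hww : ¬ A w w) (hx : x ∈ C)
    (hwx : A w x) : ∃ w' ∈ C, A w' w' ∧ A w' w ∧ ∀ y ∈ C, A w y → A w' y := by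
  have hS : ∀ u ∈ {y | y ∈ C ∧ A y w}, ∀ v ∈ {y | y ∈ C ∧ A y w}, ∀ g, Btw A u v g →
      g ∈ {y | y ∈ C ∧ A y w} := by
    rintro u ⟨hu, hu'⟩ v ⟨hv, hv'⟩ g hg
    exact ⟨h.conv u hu v hv g hg, hg.pos hu' hv'⟩
  rcases h.rootOf hS (by
    rintro a ⟨ha, ha'⟩ b ⟨hb, hb'⟩ c ⟨hc, hc'⟩ d ⟨hd, hd'⟩ hP
    obtain ⟨z, hz, hz'⟩ := hfull w hw
    exact hz' (h.all a ha b hb c hc d hd hP w (h.sym _ _ ha') (h.sym _ _ hb') (h.sym _ _ hc')
      (h.sym _ _ hd') z hz)) ⟨x, hx, h.sym _ _ hwx⟩ with ⟨r, ⟨hr, hrw⟩, hr'⟩ | ⟨r, ⟨hr, hrw⟩, hr'⟩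
  · exfalso
    obtain ⟨g, -, g1, g2, g3, g4⟩ := mid0 h.ip (Set.mem_univ w) (Set.mem_univ r) hww
      (hr' r ⟨hr, hrw⟩) (h.sym _ _ hrw)
    exact hr' g ⟨h.conv w hw r hr g g4, g2⟩ (h.sym _ _ g3)
  · exact ⟨r, hr, hr' r ⟨hr, hrw⟩, hrw, fun y hy hwy => hr' y ⟨hy, h.sym _ _ hwy⟩⟩

/-- (2) -/
theorem Cyl.iso [Finite X] {A : X → X → Prop} {C : Set X} (h : Cyl A C)
    (hfull : ∀ w ∈ C, ∃ x ∈ C, ¬ A w x) {b c z : X} (hb : b ∈ C) (hc : c ∈ C) (hcc : A c c)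
    (hbc : A b c) (hz : z ∈ C) (hzb : A z b) (hzc : ¬ A z c) :
    ∃ a ∈ C, A a b ∧ ¬ A a c ∧ ∀ y ∈ C, A y b → ¬ A y c → ¬ A a y := by
  have hS : ∀ u ∈ {y | y ∈ C ∧ A y b ∧ ¬ A y c}, ∀ v ∈ {y | y ∈ C ∧ A y b ∧ ¬ A y c}, ∀ g,
      Btw A u v g → g ∈ {y | y ∈ C ∧ A y b ∧ ¬ A y c} := by
    rintro u ⟨hu, hu', hu''⟩ v ⟨hv, hv', hv''⟩ g hg
    exact ⟨h.conv u hu v hv g hg, hg.pos hu' hv', hg.neg hu'' hv''⟩
  rcases h.rootOf hS (by
    rintro p ⟨hp, hp', -⟩ q ⟨hq, hq', -⟩ r ⟨hr, hr', -⟩ s ⟨hs, hs', -⟩ hP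
    obtain ⟨z, hz, hz'⟩ := hfull b hb
    exact hz' (h.all p hp q hq r hr s hs hP b (h.sym _ _ hp') (h.sym _ _ hq') (h.sym _ _ hr')
      (h.sym _ _ hs') z hz)) ⟨z, hz, hzb, hzc⟩ with
    ⟨r, ⟨hr, hrb, hrc⟩, hr'⟩ | ⟨r, ⟨hr, hrb, hrc⟩, hr'⟩
  · exact ⟨r, hr, hrb, hrc, fun y hy h1 h2 => hr' y ⟨hy, h1, h2⟩⟩
  · exfalso
    obtain ⟨g, -, g1, g2, g3, g4⟩ := mid1 h.ip (Set.mem_univ r) (Set.mem_univ c)
      (hr' r ⟨hr, hrb, hrc⟩) hcc hrc
    exact g2 (h.sym _ _ (hr' g ⟨h.conv r hr c hc g g4, g4.pos hrb (h.sym _ _ hbc), g3⟩))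

/-- the last case: a point which sees exactly `a` and `c` -/
theorem Cyl.last [Finite X] {A : X → X → Prop} {C : Set X} (h : Cyl A C)
    (hfull : ∀ w ∈ C, ∃ x ∈ C, ¬ A w x) {a b c d g : X} (ha : a ∈ C) (hb : b ∈ C) (hc : c ∈ C)
    (hd : d ∈ C) (hg : g ∈ C) (hP : P4 A a b c d) (hbb : A b b)
    (hdb : ∀ y ∈ C, A d y → A b y) (hdc : ∀ y ∈ C, A d y → A c y)
    (hiso : ∀ y ∈ C, A y b → ¬ A y c → ¬ A a y)
    (hmax : ∀ f ∈ C, A f f → (∀ y ∈ C, A b y → A f y) → ∀ y ∈ C, A f y → A b y)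
    (hga : A g a) (hgb : ¬ A g b) (hgd : ¬ A g d) : False := by
  obtain ⟨ab, bc, cd, ac, ad, bd⟩ := hP
  have hs := h.sym
  -- E = C - N(d)
  have hEF : ∀ p q r s, p ∈ C → q ∈ C → r ∈ C → s ∈ C → ¬ A p d → ¬ A q d → ¬ A r d → ¬ A s d →
      ¬ P4 A p q r s := by
    intro p q r s hp hq hr hs' kp kq kr ks hP
    exact h.none p hp q hq r hr s hs' hP d (fun k => kp (hs _ _ k)) (fun k => kq (hs _ _ k))
      (fun k => kr (hs _ _ k)) (fun k => ks (hs _ _ k)) c hc (hs _ _ cd)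
  let K : Set X := {y | y ∈ C ∧ ¬ A y d ∧ ∃ w ∈ C, ¬ A w d ∧ A w b ∧ A w y}
  have hKadj : ∀ y ∈ K, ∀ z ∈ C, ¬ A z d → A y z → z ∈ K := by
    rintro y ⟨hy, hyd, w, hw, hwd, hwb, hwy⟩ z hz hzd hyz
    refine ⟨hz, hzd, ?_⟩
    by_contra hno
    push Not at hno
    have n1 : ¬ A w z := hno w hw hwd hwb
    have n2 : ¬ A y b := fun k => hno y hy hyd k hyz
    have n3 : ¬ A b z := fun k => hno b hb bd hbb k
    exact hEF b w y z hb hw hy hz bd hwd hyd hzd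
      ⟨hs _ _ hwb, hwy, hyz, fun k => n2 (hs _ _ k), n3, n1⟩
  have hbK : b ∈ K := ⟨hb, bd, b, hb, bd, hbb, hbb⟩
  have haK : a ∈ K := ⟨ha, ad, b, hb, bd, hbb, hs _ _ ab⟩
  have hgK : g ∈ K := ⟨hg, hgd, a, ha, ad, ab, hs _ _ hga⟩
  -- common neighbours
  have hcom : ∀ u ∈ K, ∀ v ∈ K, A u v ∨ ∃ w ∈ C, ¬ A w d ∧ A w u ∧ A w v := by
    intro u hu
    have step : ∀ y ∈ C, ¬ A y d → ∀ z ∈ C, ¬ A z d → A y z →
        (A u y ∨ ∃ w ∈ C, ¬ A w d ∧ A w u ∧ A w y) →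
        (A u z ∨ ∃ w ∈ C, ¬ A w d ∧ A w u ∧ A w z) := by
      rintro y hy hyd z hz hzd hyz (huy | ⟨w, hw, hwd, hwu, hwy⟩)
      · exact Or.inr ⟨y, hy, hyd, hs _ _ huy, hyz⟩
      · by_contra hno
        push Not at hno
        obtain ⟨n1, n2⟩ := hno
        have n3 : ¬ A w z := n2 w hw hwd hwu
        have n4 : ¬ A u y := fun k => n2 y hy hyd (hs _ _ k) hyz
        exact hEF u w y z hu.1 hw hy hz hu.2.1 hwd hyd hzd ⟨hs _ _ hwu, hwy, hyz, n4, n1, n3⟩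
    rintro v ⟨hv, hvd, w', hw', hwd', hwb', hwv'⟩
    obtain ⟨hu1, hu2, w, hw, hwd, hwb, hwu⟩ := hu
    have r1 : A u b ∨ ∃ w ∈ C, ¬ A w d ∧ A w u ∧ A w b := Or.inr ⟨w, hw, hwd, hwu, hwb⟩
    have r2 := step b hb bd w' hw' hwd' (hs _ _ hwb') r1
    exact step w' hw' hwd' v hv hvd hwv' r2
  have hKIP : IP A K := by
    intro u hu v hv k1 k2
    obtain ⟨m, -, m1, m2, m3, m4⟩ := h.ip u (Set.mem_univ _) v (Set.mem_univ _) k1 k2
    have hmC : m ∈ C := h.conv u hu.1 v hv.1 m m4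
    have hmd : ¬ A m d := m4.neg hu.2.1 hv.2.1
    refine ⟨m, ?_, m1, m2, m3, m4⟩
    by_cases huu : A u u
    · have huv : ¬ A u v := by tauto
      rcases hcom u hu v hv with k | ⟨w, hw, hwd, hwu, hwv⟩
      · exact absurd k huv
      · have hmw : A m w := m4.pos (hs _ _ hwu) (hs _ _ hwv)
        exact hKadj w (hKadj u hu w hw hwd (hs _ _ hwu)) m hmC hmd (hs _ _ hmw)
    · have : A m m := by tauto
      exact hKadj u hu m hmC hmd (hs _ _ (m2.2 this))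
  have hKF : Free A K := fun p hp q hq r hr s hs' =>
    hEF p q r s hp.1 hq.1 hr.1 hs'.1 hp.2.1 hq.2.1 hr.2.1 hs'.2.1
  rcases root A hs _ K rfl ⟨b, hbK⟩ hKIP hKF with ⟨r, hr, hr'⟩ | ⟨f, hf, hf'⟩
  · obtain ⟨hr1, hr2, w, hw, hwd, hwb, hwr⟩ := hr
    exact hr' w (hKadj r ⟨hr1, hr2, w, hw, hwd, hwb, hwr⟩ w hw hwd (hs _ _ hwr)) (hs _ _ hwr)
  · have hfa := hf' a haK
    have hfb := hf' b hbK
    have hfg := hf' g hgK
    have hff := hf' f hf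
    have hfc : A f c := by
      by_contra k
      exact hiso f hf.1 hfb k (hs _ _ hfa)
    have hsub : ∀ y ∈ C, A b y → ¬ A y d → A f y := fun y hy hby hyd =>
      hf' y ⟨hy, hyd, b, hb, bd, hbb, hby⟩
    have hex : ∃ v ∈ C, A d v ∧ ¬ A f v := by
      by_contra hno
      push Not at hno
      have := hmax f hf.1 hff (fun y hy hby => by
        by_cases k : A y d
        · exact hno y hy (hs _ _ k)
        · exact hsub y hy hby k) g hg hfg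
      exact hgb (hs _ _ this)
    obtain ⟨v, hv, hdv, hfv⟩ := hex
    exact ac (hs _ _ (h.all f hf.1 b hb v hv d hd
      ⟨hfb, hdb v hv hdv, hs _ _ hdv, hfv, hf.2.1, bd⟩ c (hs _ _ hfc) (hs _ _ bc)
      (hdc v hv hdv) cd a ha))

/-- **the main lemma** -/
theorem Cyl.main [Finite X] {A : X → X → Prop} {C : Set X} (h : Cyl A C)
    (hfull : ∀ w ∈ C, ∃ x ∈ C, ¬ A w x)
    (hP : ∃ a ∈ C, ∃ b ∈ C, ∃ c ∈ C, ∃ d ∈ C, P4 A a b c d) :
    ∃ a ∈ C, ∃ b ∈ C, ∃ c ∈ C, ∃ d ∈ C, P4 A a b c d ∧ ¬ A a a ∧ A b b ∧ A c c ∧ ¬ A d d ∧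
      ∀ g ∈ C, ¬ ((A g a ↔ ¬ A g d) ∧ (A g b ↔ ¬ A g c)) := by
  have hs := h.sym
  obtain ⟨p, hp, q, hq, r, hr, s, hs', hPP⟩ := hP
  -- a maximal looped vertex
  have hloop : ∃ b0 ∈ C, A b0 b0 := by
    by_cases k : A q q
    · exact ⟨q, hq, k⟩
    · obtain ⟨w', hw', k1, -, -⟩ := h.plus hfull hq k hr hPP.bc
      exact ⟨w', hw', k1⟩
  obtain ⟨b, ⟨hb, hbb⟩, hmax⟩ : ∃ b, (b ∈ C ∧ A b b) ∧ ∀ f ∈ C, A f f →
      (∀ y ∈ C, A b y → A f y) → ∀ y ∈ C, A f y → A b y := by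
    obtain ⟨b0, hb0, hb00⟩ := hloop
    let T : Set X := {b | b ∈ C ∧ A b b}
    have hT : T.Nonempty := ⟨b0, hb0, hb00⟩
    obtain ⟨b, hbT, hbm⟩ := Set.exists_max_image T (fun b => ({y | y ∈ C ∧ A b y} : Set X).ncard)
      T.toFinite hT
    refine ⟨b, hbT, ?_⟩
    intro f hf hff hsub y hy hfy
    have hle := hbm f ⟨hf, hff⟩
    have hsubset : ({y | y ∈ C ∧ A b y} : Set X) ⊆ {y | y ∈ C ∧ A f y} :=
      fun z hz => ⟨hz.1, hsub z hz.1 hz.2⟩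
    have heq := Set.eq_of_subset_of_ncard_le hsubset hle (Set.toFinite _)
    have : y ∈ ({y | y ∈ C ∧ A b y} : Set X) := by rw [heq]; exact ⟨hy, hfy⟩
    exact this.2
  -- an edge leaving `N(b)`
  obtain ⟨y0, hy0, z0, hz0, hyz, hyb, hzb⟩ : ∃ y ∈ C, ∃ z ∈ C, A y z ∧ A y b ∧ ¬ A z b := by
    by_contra hno
    push Not at hno
    have e : ∀ y ∈ C, ∀ z ∈ C, A y z → (A y b ↔ A z b) := fun y hy z hz k =>
      ⟨fun k1 => hno y hy z hz k k1, fun k1 => hno z hz y hy (hs _ _ k) k1⟩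
    have e1 := e p hp q hq hPP.ab
    have e2 := e q hq r hr hPP.bc
    have e3 := e r hr s hs' hPP.cd
    by_cases k : A p b
    · obtain ⟨x, hx, hx'⟩ := hfull b hb
      exact hx' (h.all p hp q hq r hr s hs' hPP b (hs _ _ k) (hs _ _ (e1.1 k))
        (hs _ _ (e2.1 (e1.1 k))) (hs _ _ (e3.1 (e2.1 (e1.1 k)))) x hx)
    · exact h.none p hp q hq r hr s hs' hPP b (fun m => k (hs _ _ m))
        (fun m => k (e1.2 (hs _ _ m))) (fun m => k (e1.2 (e2.2 (hs _ _ m))))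
        (fun m => k (e1.2 (e2.2 (e3.2 (hs _ _ m))))) b hb hbb
  obtain ⟨c0, hc0, -, hc0b, hc0z⟩ : ∃ c0 ∈ C, A c0 c0 ∧ A c0 b ∧ A c0 z0 := by
    by_cases k : A y0 y0
    · exact ⟨y0, hy0, k, hyb, hyz⟩
    · obtain ⟨w', hw', k1, -, k3⟩ := h.plus hfull hy0 k hz0 hyz
      exact ⟨w', hw', k1, k3 b hb hyb, k3 z0 hz0 hyz⟩
  obtain ⟨d, hd, hdc0, hdb, hdiso⟩ := h.iso hfull hc0 hb hbb hc0b hz0 (hs _ _ hc0z) hzb
  have hdd : ¬ A d d := hdiso d hd hdc0 hdb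
  obtain ⟨c, hc, hcc, hcd, hcsup⟩ := h.plus hfull hd hdd hc0 hdc0
  have hcc0 : A c c0 := hcsup c0 hc0 hdc0
  have hcb : A c b := by
    by_contra k
    exact hdiso c hc hcc0 k (hs _ _ hcd)
  have hNd : ∀ y ∈ C, A d y → A b y := by
    intro y hy hdy
    by_contra k
    have n1 : ¬ A y c0 := fun m => hdiso y hy m (fun m' => k (hs _ _ m')) hdy
    obtain ⟨x, hx, hx'⟩ := hfull c hc
    exact hx' (h.all b hb c0 hc0 d hd y hy
      ⟨hs _ _ hc0b, hs _ _ hdc0, hdy, fun m => hdb (hs _ _ m), k, fun m => n1 (hs _ _ m)⟩ c hcb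
      hcc0 hcd (hcsup y hy hdy) x hx)
  obtain ⟨z, hz, hbz, hcz⟩ : ∃ z ∈ C, A b z ∧ ¬ A c z := by
    by_contra hno
    push Not at hno
    exact hdb (hs _ _ (hmax c hc hcc hno d hd hcd))
  obtain ⟨a, ha, hab, hac, haiso⟩ := h.iso hfull hb hc hcc (hs _ _ hcb) hz (hs _ _ hbz)
    (fun m => hcz (hs _ _ m))
  have haa : ¬ A a a := haiso a ha hab hac
  have had : ¬ A a d := fun m => hac (hs _ _ (hcsup a ha (hs _ _ m)))
  have hPf : P4 A a b c d := ⟨hab, hs _ _ hcb, hcd, hac, had, fun m => hdb (hs _ _ m)⟩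
  refine ⟨a, ha, b, hb, c, hc, d, hd, hPf, haa, hbb, hcc, hdd, ?_⟩
  rintro g hg ⟨h1, h2⟩
  by_cases hgd : A g d
  · have k1 := hs _ _ (hNd g hg (hs _ _ hgd))
    have k2 := hs _ _ (hcsup g hg (hs _ _ hgd))
    exact (h2.1 k1) k2
  · have hga : A g a := h1.2 hgd
    by_cases hgb : A g b
    · exact haiso g hg hgb (h2.1 hgb) (hs _ _ hga)
    · exact h.last hfull ha hb hc hd hg hPf hbb hNd hcsup haiso hmax hga hgb hgd

/-- the complement of a cylinder structure -/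
theorem Cyl.co {A : X → X → Prop} {C : Set X} (h : Cyl A C) : Cyl (Co A) C where
  sym := fun x y k k' => k (h.sym _ _ k')
  ip := h.ip.co
  conv := fun u hu v hv g hg => h.conv u hu v hv g hg.of_co
  all := fun a ha b hb c hc d hd hP w h1 h2 h3 h4 =>
    h.none b hb d hd a ha c hc (hP.co h.sym) w h2 h4 h1 h3
  none := by
    intro a ha b hb c hc d hd hP w h1 h2 h3 h4 x hx hwx
    exact hwx (h.all b hb d hd a ha c hc (hP.co h.sym) w (not_not.1 h2) (not_not.1 h4)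
      (not_not.1 h1) (not_not.1 h3) x hx)

end

open Pool.Agent.H17.P3 in
/-- **(P3)** -/
theorem p3 : P3 := by
  intro X hX M hM hPairs hSplit a0 b0 c0 d0 hP0
  classical
  have h01 : ∀ z : ZMod 2, z = 0 ∨ z = 1 := by decide
  have h10 : (1 : ZMod 2) ≠ 0 := by decide
  let A : X → X → Prop := fun x y => M x y = 1
  have hA : ∀ x y, A x y ↔ M x y = 1 := fun _ _ => Iff.rfl
  have hnA : ∀ x y, ¬ A x y ↔ M x y = 0 := by
    intro x y
    rw [hA]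
    rcases h01 (M x y) with k | k <;> simp [k]
  have heq : ∀ x y x' y', (M x y = M x' y') ↔ (A x y ↔ A x' y') := by
    intro x y x' y'
    rw [hA, hA]
    rcases h01 (M x y) with k | k <;> rcases h01 (M x' y') with k' | k' <;> simp [k, k']
  have hsym : ∀ x y, A x y → A y x := fun x y k => by rw [hA] at *; rw [hM]; exact k
  have hip : IP A Set.univ := by
    intro u _ v _ k1 k2
    obtain ⟨g, g1, g2, g3, g4⟩ := hPairs u v ((heq _ _ _ _).2 k1) (fun k => k2 ((heq _ _ _ _).1 k))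
    exact ⟨g, Set.mem_univ _, fun k => g1 ((heq _ _ _ _).2 k), (heq _ _ _ _).1 g2,
      (heq _ _ _ _).1 g3, fun x hx => (heq _ _ _ _).1 (g4 x ((heq _ _ _ _).2 hx))⟩
  -- cylinders
  let Cy : Set X → Prop := fun C => (∀ g, (∀ y, (∀ u ∈ C, A u y) → A g y) →
    (∀ y, (∀ u ∈ C, ¬ A u y) → ¬ A g y) → g ∈ C) ∧
    ∃ a ∈ C, ∃ b ∈ C, ∃ c ∈ C, ∃ d ∈ C, P4 A a b c d
  have hP0' : P4 A a0 b0 c0 d0 := ⟨hP0.ab, hP0.bc, hP0.cd, (hnA _ _).2 hP0.ac, (hnA _ _).2 hP0.ad,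
    (hnA _ _).2 hP0.bd⟩
  have hex : ∃ C, Cy C := ⟨Set.univ, fun g _ _ => Set.mem_univ _, a0, Set.mem_univ _, b0,
    Set.mem_univ _, c0, Set.mem_univ _, d0, Set.mem_univ _, hP0'⟩
  obtain ⟨C, ⟨hC, hCP⟩, hmin⟩ := WellFounded.has_min
    (wellFounded_lt : WellFounded ((· < ·) : Set X → Set X → Prop)) {C | Cy C} hex
  have cutPos : ∀ w, (∃ x ∈ C, ¬ A w x) → ∀ a ∈ C, ∀ b ∈ C, ∀ c ∈ C, ∀ d ∈ C, P4 A a b c d →
      A w a → A w b → A w c → A w d → False := by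
    rintro w ⟨x, hx, hwx⟩ a ha b hb c hc d hd hP h1 h2 h3 h4
    refine hmin {y | y ∈ C ∧ A y w} ⟨?_, a, ⟨ha, hsym _ _ h1⟩, b, ⟨hb, hsym _ _ h2⟩, c,
      ⟨hc, hsym _ _ h3⟩, d, ⟨hd, hsym _ _ h4⟩, hP⟩ ⟨fun y hy => hy.1, fun k => ?_⟩
    · intro g g1 g2
      exact ⟨hC g (fun y k => g1 y (fun u hu => k u hu.1)) (fun y k => g2 y (fun u hu => k u hu.1)),
        g1 w (fun u hu => hu.2)⟩
    · exact hwx (hsym _ _ (k hx).2)
  have cutNeg : ∀ w, (∃ x ∈ C, A w x) → ∀ a ∈ C, ∀ b ∈ C, ∀ c ∈ C, ∀ d ∈ C, P4 A a b c d →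
      ¬ A w a → ¬ A w b → ¬ A w c → ¬ A w d → False := by
    rintro w ⟨x, hx, hwx⟩ a ha b hb c hc d hd hP h1 h2 h3 h4
    refine hmin {y | y ∈ C ∧ ¬ A y w} ⟨?_, a, ⟨ha, fun k => h1 (hsym _ _ k)⟩, b,
      ⟨hb, fun k => h2 (hsym _ _ k)⟩, c, ⟨hc, fun k => h3 (hsym _ _ k)⟩, d,
      ⟨hd, fun k => h4 (hsym _ _ k)⟩, hP⟩ ⟨fun y hy => hy.1, fun k => ?_⟩
    · intro g g1 g2
      exact ⟨hC g (fun y k => g1 y (fun u hu => k u hu.1)) (fun y k => g2 y (fun u hu => k u hu.1)),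
        g2 w (fun u hu => hu.2)⟩
    · exact (k hx).2 (hsym _ _ hwx)
  have hCyl : Cyl A C := by
    refine ⟨hsym, hip, ?_, ?_, ?_⟩
    · intro u hu v hv g hg
      refine hC g (fun y k => hg.pos (k u hu) (k v hv)) (fun y k => hg.neg (k u hu) (k v hv))
    · intro a ha b hb c hc d hd hP w h1 h2 h3 h4 x hx
      by_contra k
      exact cutPos w ⟨x, hx, k⟩ a ha b hb c hc d hd hP h1 h2 h3 h4
    · intro a ha b hb c hc d hd hP w h1 h2 h3 h4 x hx k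
      exact cutNeg w ⟨x, hx, k⟩ a ha b hb c hc d hd hP h1 h2 h3 h4
  -- a good path contradicts `P4Split`
  have fin : ∀ a ∈ C, ∀ b ∈ C, ∀ c ∈ C, ∀ d ∈ C, P4 A a b c d → ¬ A a a → A b b → A c c →
      ¬ A d d → (∀ g ∈ C, ¬ ((A g a ↔ ¬ A g d) ∧ (A g b ↔ ¬ A g c))) → False := by
    intro a ha b hb c hc d hd hP l1 l2 l3 l4 hgood
    obtain ⟨g, ⟨b1, b2⟩, hg⟩ := hSplit a b c d ⟨hP.ab, hP.bc, hP.cd, (hnA _ _).1 hP.ac,
      (hnA _ _).1 hP.ad, (hnA _ _).1 hP.bd⟩ ((hnA _ _).1 l1) l2 l3 ((hnA _ _).1 l4)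
    have hgC : g ∈ C := by
      refine hC g ?_ ?_
      · intro y k
        have e1 := k a ha
        have e2 := k b hb
        have e3 := k c hc
        have e4 := k d hd
        have := hg y ((heq _ _ _ _).2 (by tauto)) ((heq _ _ _ _).2 (by tauto))
          ((heq _ _ _ _).2 (by tauto))
        exact ((heq _ _ _ _).1 this).2 e1
      · intro y k
        have e1 := k a ha
        have e2 := k b hb
        have e3 := k c hc
        have e4 := k d hd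
        have := hg y ((heq _ _ _ _).2 (by tauto)) ((heq _ _ _ _).2 (by tauto))
          ((heq _ _ _ _).2 (by tauto))
        exact fun m => e1 (((heq _ _ _ _).1 this).1 m)
    refine hgood g hgC ⟨?_, ?_⟩
    · have : ¬ (A g a ↔ A g d) := fun m => b1 ((heq _ _ _ _).2 m)
      tauto
    · have : ¬ (A g b ↔ A g c) := fun m => b2 ((heq _ _ _ _).2 m)
      tauto
  by_cases hfull : ∀ w ∈ C, ∃ x ∈ C, ¬ A w x
  · obtain ⟨a, ha, b, hb, c, hc, d, hd, hP, l1, l2, l3, l4, hgood⟩ := hCyl.main hfull hCP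
    exact fin a ha b hb c hc d hd hP l1 l2 l3 l4 hgood
  · push Not at hfull
    obtain ⟨w0, hw0, hw0'⟩ := hfull
    obtain ⟨p, hp, q, hq, r, hr, s, hs, hPP⟩ := hCP
    obtain ⟨a, ha, b, hb, c, hc, d, hd, hP, l1, l2, l3, l4, hgood⟩ := hCyl.co.main
      (fun w hw => ⟨w0, hw0, fun k => k (hsym _ _ (hw0' w hw))⟩)
      ⟨q, hq, s, hs, p, hp, r, hr, hPP.bd, fun k => hPP.ad (hsym _ _ k), hPP.ac,
        fun k => k (hsym _ _ hPP.ab), fun k => k hPP.bc, fun k => k (hsym _ _ hPP.cd)⟩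
    refine fin b hb d hd a ha c hc (hP.co hsym) l2 (not_not.1 l4) (not_not.1 l1) l3 ?_
    rintro g hg ⟨k1, k2⟩
    refine hgood g hg ⟨?_, ?_⟩
    · unfold Co
      tauto
    · unfold Co
      tauto

end Pool.Agent.H14.P3
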